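import Pool.Agent.R413.SM.Law
import Pool.Agent.Results.MP_92892c_nt.FullClassTwoPartX49

/-!
# Simultaneous analytic rank zero for the twists of `X_0(49)` by all products of primes `≡ 1 mod 4`

`D ≥ 1` runs over all squarefree numbers with all prime factors `≡ 1 mod 4` (inert or split in
`ℚ(√-7)`, in any number), and `E_D` is the quadratic twist by `D` of
`X_0(49) : y² + x y = x³ - x² - 2 x - 1`. For `M` and `D` in the class the squarefree part `tw M D` of
`M D` is in the class, and `E_{tw M D}` is the twist by `D` of `E_M`. Let `T` be any finite subset of the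
class and `V` a subset of `T`. For exactly the proportion `c ^ |V| (1 - c) ^ |T \ V|` of the `D` of the
class, `c = ∏_{i ≥ 0} (1 - 2^{-(2i+1)}) = 0.4194...`, the twists by `D` of the `E_M`, `M ∈ V`, have
analytic rank zero, finitely many rational points and `Ш[2] = 0`, and the other twists by `D` of the
`E_M`, `M ∈ T`, have infinitely many rational points or `Ш[2] ≠ 0`. There are at least
`a X / √(log X)` such `D ≤ X`, `a > 0`. In particular the twists by `D` of the `E_M`, `M ∈ T`, all have
analytic rank zero for at least the proportion `c ^ |T|` of the `D` of the class.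

The counting is in `Pool/Agent/R413/SM` and `Pool/Agent/R413/SQ` (after helper494's `R494/SQ` and the
projects JQ and CQ of the starting files, extended to the full class of the primes `1 mod 4`), the
criterion and the nonvanishing for a single `D` are from helper428's `MP_4a9ea6_nt/TwoPartTwistsX49`.
-/

set_option autoImplicit false

open Filter Topology

namespace Pool.Agent.Results.MP_03e5d0_nt.FullClassX49

open Pool.Agent.Results.MP_4a9ea6_nt.TwoPartTwistsX49 (E twist)
open Pool.Agent.Results.MP_92892c_nt.FullClassTwoPartX49 (Family RankZeroShaTwo num)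

/-- the squarefree part of `M D`, for squarefree `M` and `D` -/
def tw (M D : ℕ) : ℕ := M * D / Nat.gcd M D ^ 2

/-- The analytic rank of the twist `E_D` by `D` of `X_0(49)`, with the minimal equation
`y² + x y = x³ - (3 D + 1)/4 x² - 2 D² x - D³`, is zero. -/
def AnalyticRankZero (D : ℕ) : Prop :=
  ∃ Λ : ℂ → ℂ, Differentiable ℂ Λ ∧ (∀ s : ℂ, 2 < s.re → Λ s = (E D).LSeries s) ∧ Λ 1 ≠ 0

/-- `D` has the pattern `V ⊆ T`: the twists by `D` of the `E_M`, `M ∈ V`, have analytic rank zero, and
`V` is the set of the `M ∈ T` such that the twist by `D` of `E_M` has finitely many rational points and no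
element of order two in `Ш` -/
def Pattern (T V : Finset ℕ) (D : ℕ) : Prop :=
  (∀ M ∈ V, AnalyticRankZero (tw M D)) ∧ ∀ M ∈ T, (RankZeroShaTwo (tw M D) ↔ M ∈ V)

/-- the constant `0.4194...` -/
noncomputable def c : ℝ := ∏' i : ℕ, (1 - (1 / 2 : ℝ) ^ (2 * i + 1))

section proof

open Pool.Agent.R413.SQ
open Pool.Agent.Results.MP_4a9ea6_nt.TwoPartTwistsX49 (Adm mat core two_iff)
open Pool.Agent.Results.MP_92892c_nt.FullClassTwoPartX49 (sel_iff)

theorem sel_det {D : ℕ} (h : Adm D) : RankZeroShaTwo D ↔ (mat D).det ≠ 0 := by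
  rw [sel_iff]
  exact (core h).2.2.2.1

theorem an_of {D : ℕ} (h : Adm D) (hd : (mat D).det ≠ 0) : AnalyticRankZero D := by
  obtain ⟨-, -, Λ, h1, h2, h3, -⟩ := (two_iff h).2 hd
  exact ⟨Λ, h1, h2, h3⟩

theorem pat_iff {T V : Finset ℕ} (hT : ∀ M ∈ T, Adm M) (hV : V ⊆ T) {D : ℕ} (hD : Adm D) :
    Pattern T V D ↔ ∀ M ∈ T, ((mat (Joint.tw M D)).det ≠ 0 ↔ M ∈ V) := by
  constructor
  · rintro ⟨-, h⟩ M hM
    rw [← sel_det (Joint.adm_tw (hT M hM) hD)]
    exact h M hM
  · intro h
    refine ⟨fun M hM => ?_, fun M hM => ?_⟩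
    · exact an_of (Joint.adm_tw (hT M (hV hM)) hD) ((h M (hV hM)).2 hM)
    · exact (sel_det (Joint.adm_tw (hT M hM) hD)).trans (h M hM)

theorem num_num {Q R : ℕ → Prop} (h : ∀ D, Adm D → (Q D ↔ R D)) (X : ℕ) :
    num Q X = Joint.num R X := by
  classical
  unfold num Joint.num
  refine congrArg Finset.card (Finset.filter_congr fun D _ => ?_)
  exact and_congr_right fun hD => h D hD

end proof

theorem result :
    (∀ M D : ℕ, Family M → Family D → Family (tw M D) ∧ M * D = tw M D * Nat.gcd M D ^ 2) ∧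
    (∀ T V : Finset ℕ, (∀ M ∈ T, Family M) → V ⊆ T →
      Tendsto (fun X : ℕ => (num (Pattern T V) X : ℝ) / (num (fun _ => True) X : ℝ)) atTop
        (𝓝 (c ^ V.card * (1 - c) ^ (T.card - V.card))) ∧
      ∃ (a : ℝ) (X₀ : ℕ), 0 < a ∧ ∀ X : ℕ, X₀ ≤ X →
        a * X / Real.sqrt (Real.log X) ≤ (num (Pattern T V) X : ℝ)) ∧
    0.4194 < c ∧ c < 0.4195 := by
  have hcc : Pool.Agent.Y703.CQ.c2 = c := rfl
  have hc1 : 0.4194 < c := Pool.Agent.Y948.CQ.t_C2.2.2.2.1
  have hc2 : c < 0.4195 := Pool.Agent.Y948.CQ.t_C2.2.2.2.2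
  refine ⟨fun M D hM hD => ⟨Pool.Agent.R413.SQ.Joint.adm_tw hM hD,
    (Pool.Agent.R413.SQ.Joint.ac_tw hM hD).2⟩, fun T V hT hV => ?_, hc1, hc2⟩
  have h := Pool.Agent.R413.SQ.Joint.law hT hV
  rw [hcc, Finset.card_sdiff_of_subset hV] at h
  have h1 := fun X => num_num (fun D hD => pat_iff hT hV (D := D) hD) X
  have h2 := fun X => num_num (Q := fun _ => True) (R := fun _ => True) (fun _ _ => Iff.rfl) X
  refine ⟨?_, ?_⟩
  · simp only [h1, h2]
    exact h
  · have h3 : 0 < c ^ V.card * (1 - c) ^ (T.card - V.card) := by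
      have k1 : 0 < c := by linarith
      have k2 : 0 < 1 - c := by linarith
      positivity
    simp only [h1]
    exact Pool.Agent.R413.SQ.Joint.low_of h3 h

end Pool.Agent.Results.MP_03e5d0_nt.FullClassX49
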