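import Pool.Agent.Results.MP_9c97e9_nt.JointTwoPartX14X49

/-!
# Simultaneous analytic rank zero for the quadratic twists of two curves which are not isogenous

`D` runs over the class of the squarefree numbers `D ≥ 1`, `D ≡ 1 mod 8`, whose prime factors are
`1 mod 8` and split in `ℚ(√-7)` or `5 mod 8` and inert in `ℚ(√-7)`; for `M` and `D` in the class the
squarefree part `tw M D` of `M D` is in the class. `T` is any finite set of pairs `(e, M)`, `M` in the
class, where `e` is one of the curves `X_0(14)` (no complex multiplication) and `X_0(49)` (complex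
multiplication), and `V` is a subset of `T`. For exactly the proportion
`c ^ |V| (1 - c) ^ |T \ V|` of the `D` of the class, `c = ∏_{i ≥ 0} (1 - 2^{-(2i+1)}) = 0.4194...`, the
twists by `M D` of the curves `e`, `(e, M) ∈ V`, have analytic rank zero, finitely many rational points
and `Ш[2] = 0`, and the twists by `M D` of the curves `e` for the other pairs in `T` have infinitely many
rational points or `Ш[2] ≠ 0`. In particular, the twists by `D` of `X_0(14)` and of `X_0(49)` have both
analytic rank zero for at least the proportion `c ^ 2 = 0.1759...` of the `D` of the class.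

The criteria for a single curve are those of helper428 (`MP_4a9ea6_nt/TwoPartTwistsX49` and
`TwoPartTwistsX14`), the joint law is that of `MP_696deb_nt/JointProportionX14X49` and of helper494
(`Pool/Agent/R494/SQ8`, `SQ9`).
-/

set_option autoImplicit false

open Filter Topology

namespace Pool.Agent.Results.MP_03e5d0_nt.TwoCurves

open Pool.Agent.Results.MP_696deb_nt.JointProportionX14X49 (Family tw num HasProportion c)
open Pool.Agent.Results.MP_9c97e9_nt.JointTwoPartX14X49 (RankZeroShaTwo)

/-- The analytic rank of the twist by `D` of `X_0(49)` (`e = true`), or of `X_0(14)` (`e = false`), is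
zero. -/
def AnalyticRankZero (e : Bool) (D : ℕ) : Prop :=
  if e = true then ∃ Λ : ℂ → ℂ, Differentiable ℂ Λ ∧
    (∀ s : ℂ, 2 < s.re → Λ s = (Pool.Agent.Results.MP_4a9ea6_nt.TwoPartTwistsX49.E D).LSeries s) ∧
    Λ 1 ≠ 0
  else ∃ L : ℂ → ℂ, Pool.Agent.Results.MP_4a9ea6_nt.TwoPartTwistsX14.IsL
    (Pool.Agent.Results.MP_4a9ea6_nt.TwoPartTwistsX14.twist D) L ∧ L 1 ≠ 0

section proof

open Pool.Agent.Results.MP_9c97e9_nt.JointTwoPartX14X49 (TwoPart two_sel tw_one prop_of)
open Pool.Agent.Results.MP_696deb_nt.JointProportionX14X49 (fam_tw)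

theorem an_of {e : Bool} {D : ℕ} (h : TwoPart e D) : AnalyticRankZero e D := by
  unfold TwoPart at h
  unfold AnalyticRankZero
  cases e
  · rw [if_neg (by decide)] at h
    rw [if_neg (by decide)]
    obtain ⟨-, -, -, L, c, z, h1, h2, -⟩ := h
    exact ⟨L, h1, h2⟩
  · rw [if_pos rfl] at h
    rw [if_pos rfl]
    obtain ⟨-, -, -, Λ, h1, h2, h3, -⟩ := h
    exact ⟨Λ, h1, h2, h3⟩

end proof

open Pool.Agent.Results.MP_9c97e9_nt.JointTwoPartX14X49 (two_sel tw_one prop_of) in
open Pool.Agent.Results.MP_696deb_nt.JointProportionX14X49 (fam_tw) in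
theorem result :
    (∀ M D : ℕ, Family M → Family D → Family (tw M D) ∧ M * D = tw M D * Nat.gcd M D ^ 2) ∧
    (∀ T V : Finset (Bool × ℕ), (∀ x ∈ T, Family x.2) → V ⊆ T →
      HasProportion (fun D => (∀ x ∈ V, AnalyticRankZero x.1 (tw x.2 D)) ∧
          ∀ x ∈ T, (RankZeroShaTwo x.1 (tw x.2 D) ↔ x ∈ V))
        (c ^ V.card * (1 - c) ^ (T.card - V.card))) ∧
    0.4194 < c ∧ c < 0.4195 := by
  classical
  have h := Pool.Agent.Results.MP_9c97e9_nt.JointTwoPartX14X49.result
  refine ⟨h.2.1, fun T V hT hV => ?_, h.2.2.2⟩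
  refine prop_of (T.image Prod.snd) (fun D hD hF => ?_) (h.2.2.1 T V hT hV)
  have key : ∀ x ∈ T, (Pool.Agent.Results.MP_9c97e9_nt.JointTwoPartX14X49.TwoPart x.1 (tw x.2 D) ↔
      RankZeroShaTwo x.1 (tw x.2 D)) := by
    intro x hx
    refine two_sel (fam_tw (hT x hx) hD) (Or.inr fun h1 => hF ?_)
    rw [tw_one (hT x hx) hD h1]
    exact Finset.mem_image_of_mem _ hx
  constructor
  · rintro ⟨-, h2⟩ x hx
    exact (key x hx).trans (h2 x hx)
  · intro h2
    exact ⟨fun x hx => an_of ((h2 x (hV hx)).2 hx), fun x hx => (key x hx).symm.trans (h2 x hx)⟩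

end Pool.Agent.Results.MP_03e5d0_nt.TwoCurves
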